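import Pool.Agent.Q124.HB.Cyc4
import Pool.Agent.Q124.HB.Cyc1
import Pool.Agent.Q124.HB.Num

/-!
# MP_5a160e_an: heavy-ball cycles are not always realised in dimension one

The definitions `InClass`, `HasCycle`, `cyc`, `region` are in `Pool.Agent.Q124.HB.Def`.

At suitable parameters (`γ = 1`, `β ≈ 0.46775`, `L ≈ 2.59652`, `μ ≈ 0.004265`) the heavy-ball method has a cycle of
length ten in dimension four, obtained by mixing the rotations by `2π/5` and by `3π/5`, and no cycle of any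
length in dimension one.
-/

namespace Pool.Agent.Results.MP_5a160e_an.NotOneDimensional

open Pool.Agent.Q124.HB

theorem result :
    (¬ ∀ μ L : ℝ, 0 < μ → μ < L → cyc μ L 1 = region μ L) ∧
    ∃ μ L β : ℝ, 0 < μ ∧ μ < L ∧ 0 < β ∧ β < 1 ∧ HasCycle μ L 1 β 4 10 ∧
      ∀ K : ℕ, 3 ≤ K → ¬ HasCycle μ L 1 β 1 K := by
  have main : ∃ μ L β : ℝ, 0 < μ ∧ μ < L ∧ 0 < β ∧ β < 1 ∧ HasCycle μ L 1 β 4 10 ∧
      ∀ K : ℕ, 3 ≤ K → ¬ HasCycle μ L 1 β 1 K := by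
    obtain ⟨φ, w, f1, f2, hφ, w1, w2, hw, hφ5⟩ := exists_phi_w
    obtain ⟨β, ℓ, m, b0, b1, hm, hml, g1, g4, gQ⟩ := exists_params f1 f2 hφ w1 w2
    exact ⟨m, ℓ, β, hm, hml, b0, b1, cycle4 f1 f2 hφ5 hφ w1 w2 hw b0 hm hml g1 g4 gQ,
      no_cycle1 (by linarith) (by linarith) hφ hw (by linarith) b0 b1 g1 g4 gQ⟩
  refine ⟨?_, main⟩
  intro h
  obtain ⟨μ, L, β, h0, h1, -, -, h4, h5⟩ := main
  have h6 : ((1 : ℝ), β) ∈ region μ L := ⟨4, by norm_num, 10, by norm_num, h4⟩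
  rw [← h μ L h0 h1] at h6
  obtain ⟨K, hK, h7⟩ := h6
  exact h5 K hK h7

end Pool.Agent.Results.MP_5a160e_an.NotOneDimensional
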